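import Pool.Agent.N98.RW.Ver

/-!
MP_5b7a2c_ag: log uniformization in bounded degree.

Let `R` be a noetherian ring with infinite fraction field `E`, let `K` be a function field over `E`
of transcendence degree `r` and degree at most `δ`, and let `V` be a valuation ring of `K` over `R`
whose residue field has characteristic `0` or `> (δ * e ^ r) ^ 2 ^ r`. If `V ∩ E` is log
uniformizable on `Spec R` (known for quasi-excellent `R` of dimension at most `3`, by Cossart and
Piltant), or if `R` is regular of dimension at most `2` at the centre of `V` (with finite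
normalizations), then for all closed sets `V(D)` and all blowings-up `X₀` of `X = Spec A` which are
defined by products of polynomials of degree at most `e` there is a blowing-up of `X` which factors
through `X₀` and is a log desingularization of `(X, V(D))` along `V`. There are no conditions on the
dimension of `X`, and on the rank, the residue field, the value group and the defect of `V`.

The proof uses neither resolution of singularities in characteristic zero nor ramification theory.
One constructs regular models of the fields `E (z 1, ..., z i)` on which the members of families of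
polynomials which are closed under derivatives, and their resultants, are locally monomial, and one
controls the denominators of the regular functions of the charts.

helper98; built on the library of the starting files.
-/

set_option autoImplicit false

universe u

namespace Pool.Agent.Results.MP_5b7a2c_ag.BoundedDegreeLogUniformization

open Pool.Agent.W418.LU2

/-- The local ring of `Spec B` at the centre of the valuation ring `V`: the fractions of elements
of `B` whose denominators are units of `V`. -/
def centreRing {F : Type u} [Field F] (V : ValuationSubring F) (B : Subring F) : Subring F where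
  carrier := {x | ∃ a ∈ B, ∃ b ∈ B, b ≠ 0 ∧ b⁻¹ ∈ V ∧ x = a * b⁻¹}
  mul_mem' := (lo V.toSubring B).mul_mem'
  one_mem' := (lo V.toSubring B).one_mem'
  add_mem' := (lo V.toSubring B).add_mem'
  zero_mem' := (lo V.toSubring B).zero_mem'
  neg_mem' := (lo V.toSubring B).neg_mem'

/-- The chart `A[I / f]` of the blowing-up of `Spec A` in the ideal `I`. -/
def blowUpChart {F : Type u} [Field F] (A : Subring F) (I : Ideal A) (f : A) : Subring F :=
  Subring.closure ((A : Set F) ∪ {z | ∃ a ∈ I, z = (a : F) / (f : F)})

/-- `P` is a regular local ring and the zero set of `J` is a divisor with strict normal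
crossings: the radical of `J` is generated by the product of some of the elements of a regular
system of parameters. -/
def RegularPair (P : Type u) [CommRing P] (J : Ideal P) : Prop :=
  ∃ (_ : IsRegularLocalRing P) (n : ℕ) (x : Fin n → P) (s : Finset (Fin n)),
    Ideal.span (Set.range x) = IsLocalRing.maximalIdeal P ∧ ringKrullDim P = n ∧
      J.radical = Ideal.span {∏ i ∈ s, x i}

/-- The element `f ∈ I` generates the ideal `I V`. Then the centre of `V` on the blowing-up of
`Spec A` in `I` lies in the chart `Spec A[I / f]`. -/
def Generates {F : Type u} [Field F] (V : ValuationSubring F) {A : Subring F} (I : Ideal A)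
    (f : A) : Prop :=
  f ∈ I ∧ f ≠ 0 ∧ ∀ a ∈ I, (a : F) / (f : F) ∈ V

/-- The ideal which is generated by the ideal `J` of `A` in the local ring of the chart
`Spec A[I / f]` at the centre of `V`. -/
def extension {F : Type u} [Field F] (V : ValuationSubring F) {A : Subring F} (J I : Ideal A)
    (f : A) : Ideal (centreRing V (blowUpChart A I f)) :=
  Ideal.span {z | ∃ a ∈ J, (z : F) = (a : F)}

/-- The blowing-up of `X = Spec A` in `V(I)` is a log desingularization of `(X, V(D))` along the
valuation ring `V`. (The ideal `D I` defines the preimage of `V(D) ∪ V(I)`.) -/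
def IsLogDesingularization {F : Type u} [Field F] (V : ValuationSubring F) (A : Subring F)
    (D I : Ideal A) : Prop :=
  ∃ f, Generates V I f ∧ RegularPair (centreRing V (blowUpChart A I f)) (extension V (D * I) I f)

/-- The elements `x i` define a divisor with strict normal crossings on `Spec P`, everywhere: for
each prime ideal `Q` of `P` the local ring is regular, and those `x i` which lie in `Q` are a part
of a regular system of parameters of it (their classes modulo the square of the maximal ideal are
linearly independent over the residue field). -/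
def IsSNC {P : Type u} [CommRing P] {m : ℕ} (x : Fin m → P) : Prop :=
  ∀ (Q : Ideal P) [Q.IsPrime], IsRegularLocalRing (Localization.AtPrime Q) ∧
    ∀ c : Fin m → Localization.AtPrime Q, (∀ i, x i ∉ Q → c i = 0) →
      ∑ i, c i * algebraMap P (Localization.AtPrime Q) (x i) ∈
        IsLocalRing.maximalIdeal (Localization.AtPrime Q) ^ 2 →
      ∀ i, c i ∈ IsLocalRing.maximalIdeal (Localization.AtPrime Q)

/-- The zero set of `J` is a divisor with strict normal crossings on `Spec P`, everywhere. (If `P`
is a regular local ring, then this is equivalent to `RegularPair P J`, by a theorem of Serre.) -/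
def SNCPair (P : Type u) [CommRing P] (J : Ideal P) : Prop :=
  ∃ (m : ℕ) (x : Fin m → P), IsSNC x ∧ J.radical = Ideal.span {∏ i, x i}

/-- The valuation ring `V` is log uniformizable on `Spec R`: for each closed set `V(D)` and each
blowing-up in `V(I₀)` there is an ideal `I₁` such that the blowing-up in `I₀ * I₁`, which factors
through the blowing-up in `I₀`, is a log desingularization of `(Spec R, V(D))` along `V`. -/
def IsLogUniformizable {F : Type u} [Field F] (V : ValuationSubring F) (R : Subring F) : Prop :=
  ∀ D I₀ : Ideal R, D ≠ ⊥ → I₀ ≠ ⊥ → ∃ I₁ : Ideal R, I₁ ≠ ⊥ ∧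
    ∃ f, Generates V (I₀ * I₁) f ∧ SNCPair (centreRing V (blowUpChart R (I₀ * I₁) f))
      (extension V (D * (I₀ * I₁)) (I₀ * I₁) f)

/-- `P` is a regular local ring of dimension at most two, and the normalizations of its residue
class domains are finite (for example, `P` is excellent). -/
def IsSurface (P : Type u) [CommRing P] : Prop :=
  IsRegularLocalRing P ∧ ringKrullDim P ≤ 2 ∧ ∀ (𝔭 : Ideal P) [𝔭.IsPrime], 𝔭 ≠ ⊥ →
    Module.Finite (P ⧸ 𝔭) (integralClosure (P ⧸ 𝔭) (FractionRing (P ⧸ 𝔭)))

/-- The values at the point `x` of the polynomials over `E` of total degree at most `t`. -/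
noncomputable def values (E : Type u) {K : Type u} [Field E] [Field K] [Algebra E K] {N : ℕ}
    (x : Fin N → K) (t : ℕ) : Submodule E K :=
  (MvPolynomial.restrictTotalDegree (Fin N) E t).map
    (MvPolynomial.aeval x : MvPolynomial (Fin N) E →ₐ[E] K).toLinearMap

/-- The variety in the affine space over `E` with the generic point `x` (the zeros of the
polynomials which vanish at `x`), whose function field is `K`, has dimension `r` and degree at
most `δ`: its Hilbert function, the dimension of the space of the polynomial functions of degree
at most `t` on the variety, is at most `δ * t ^ r / r! + O (t ^ (r - 1))`. -/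
def DegreeAtMost (E : Type u) {K : Type u} [Field E] [Field K] [Algebra E K] {N : ℕ}
    (x : Fin N → K) (r δ : ℕ) : Prop :=
  IntermediateField.adjoin E (Set.range x) = ⊤ ∧ Algebra.trdeg E K = r ∧
    ∃ C : ℕ, ∀ t : ℕ, r.factorial * Module.finrank E (values E x t) ≤ δ * (t + C) ^ r

/-- The element `z` is a product of (positive or negative) powers of polynomials of degree at most
`e` in the `x j` with coefficients in `E`. -/
def IsProduct (E : Type u) {K : Type u} [Field E] [Field K] [Algebra E K] {N : ℕ}
    (x : Fin N → K) (e : ℕ) (z : K) : Prop :=
  ∃ (q : ℕ) (P : Fin q → MvPolynomial (Fin N) E) (n : Fin q → ℤ),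
    (∀ i, (P i).totalDegree ≤ e) ∧ z = ∏ i, MvPolynomial.aeval x (P i) ^ n i

/-- The subring `A` of `K` is integral over a ring which is generated over `R` by finitely many
products of powers of polynomials of degree at most `e` in the `x j` over `E`, and the `x j` are
fractions of elements of `A` whose denominators are such products. -/
def IsModel {E K : Type u} [Field E] [Field K] [Algebra E K] (R : Subring E) {N : ℕ}
    (x : Fin N → K) (e : ℕ) (A : Subring K) : Prop :=
  (∃ G : Set K, G.Finite ∧ (∀ z ∈ G, IsProduct E x e z) ∧
    Subring.closure ((R.map (algebraMap E K) : Set K) ∪ G) ≤ A ∧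
    ∀ z ∈ A, IsIntegral (Subring.closure ((R.map (algebraMap E K) : Set K) ∪ G)) z) ∧
  ∀ j, ∃ b ∈ A, b ≠ 0 ∧ IsProduct E x e b ∧ b * x j ∈ A

/-- The ideal `I` is nonzero, and generated by finitely many products of powers of polynomials of
degree at most `e` in the `x j` over `E`. -/
def IsGenerated {E K : Type u} [Field E] [Field K] [Algebra E K] {N : ℕ}
    (x : Fin N → K) (e : ℕ) {A : Subring K} (I : Ideal A) : Prop :=
  I ≠ ⊥ ∧ ∃ S : Set A, S.Finite ∧ (∀ a ∈ S, IsProduct E x e (a : K)) ∧ I = Ideal.span S

/-- Let `V` be a valuation ring of a field `K`, let `E` be an infinite subfield of `K`, and `R` a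
noetherian subring of `E ∩ V` with fraction field `E`. Suppose that `V ∩ E` is log uniformizable on
`Spec R`, or that the local ring of `Spec R` at the centre of `V` is regular of dimension at most
two (with finite normalizations). Let `x = (x 1, ..., x N)` be the generic point of an affine
variety over `E` with function field `K`, of dimension `r` and degree at most `δ`, and let `e ≥ 1`
be such that the primes `≤ (δ * e ^ r) ^ 2 ^ r` are units of `V`. Let `X = Spec A`, where
`A ⊆ V` is integral over a ring generated over `R` by finitely many products of powers of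
polynomials of degree at most `e` in the `x j` over `E`, and the `x j` are fractions of elements of
`A` whose denominators are such products. Then for each closed set `V(D)` and each blowing-up `X₀`
of `X` in a center `V(I₀)`, where `D` and `I₀` are nonzero ideals generated by finitely many such
products, there is an ideal `I₁ ≠ 0` of `A` such that the blowing-up of `X` in `I₀ * I₁`, which
factors through `X₀`, is a log desingularization of `(X, V(D))` along `V`. -/
theorem result {E K : Type u} [Field E] [Infinite E] [Field K] [Algebra E K]
    (V : ValuationSubring K) (R : Subring E) [IsNoetherianRing R]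
    (hfr : ∀ z : E, ∃ a ∈ R, ∃ b ∈ R, b ≠ 0 ∧ z = a * b⁻¹)
    (hRV : ∀ a ∈ R, algebraMap E K a ∈ V)
    (hR : IsLogUniformizable (V.comap (algebraMap E K)) R ∨
      IsSurface (centreRing (V.comap (algebraMap E K)) R))
    (N r δ e : ℕ) (he : 1 ≤ e) (x : Fin N → K) (hx : DegreeAtMost E x r δ)
    (hp : ∀ p : ℕ, p.Prime → p ≤ (δ * e ^ r) ^ 2 ^ r → V.valuation (p : K) = 1)
    (A : Subring K) (hAV : A ≤ V.toSubring) (hA : IsModel R x e A)
    (D I₀ : Ideal A) (hD : IsGenerated (E := E) x e D) (hI : IsGenerated (E := E) x e I₀) :
    ∃ I₁ : Ideal A, I₁ ≠ ⊥ ∧ IsLogDesingularization V A D (I₀ * I₁) := by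
  obtain ⟨htop, htr, C, hC⟩ := hx
  obtain ⟨⟨G, hG, hGx, hGA, hA⟩, hxA⟩ := hA
  obtain ⟨hD0, SD, hSD, hDx, hD⟩ := hD
  obtain ⟨hI0, SI, hSI, hIx, hI⟩ := hI
  have hRV' : R ≤ (V.comap (algebraMap E K)).toSubring := fun a ha => hRV a ha
  suffices h : ∃ I₁ : Ideal A, I₁ ≠ ⊥ ∧ Pool.Agent.N98.RW.LogDesing V A D (I₀ * I₁) by
    obtain ⟨I₁, h1, f, hf, hf0, hfV, h⟩ := h
    exact ⟨I₁, h1, f, ⟨hf, hf0, hfV⟩, h⟩
  refine Pool.Agent.N98.RW.lgu_deg he x htop htr C hC V hp R hfr ?_ G hG hGx A hAV hGA hA hxA D I₀
    SD SI hSD hSI hD hI hD0 hI0 hDx hIx
  rcases hR with hR | ⟨h1, h2, h3⟩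
  · refine Pool.Agent.N98.RW.hasF_of_logUnif _ R hRV' hfr fun D hD => ?_
    obtain ⟨I₁, -, f, ⟨hf, hf0, hfV⟩, m, y, hy, h⟩ := hR D ⊤ hD (by
      intro h
      have h1 : (1 : R) ∈ (⊤ : Ideal R) := trivial
      rw [h, Ideal.mem_bot] at h1
      exact one_ne_zero h1)
    exact ⟨⊤ * I₁, f, hf, hf0, hfV, m, y, hy, h⟩
  · exact Pool.Agent.N98.RW.hasF_dim_le_two _ R hRV' hfr h1 h2 h3

end Pool.Agent.Results.MP_5b7a2c_ag.BoundedDegreeLogUniformization
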