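import Pool.Agent.N102.FL.LFin
import Pool.Agent.N169.FL.WT
import Pool.Agent.N433.FL.Pt
import Pool.Agent.N301.FL.Sys
import Pool.Agent.N595.FL.Cut
import Pool.Agent.N498.FL.Asc

/-!
MP_5b7a2c_ag: ascent of log uniformization, in arbitrary dimension and characteristic `p > 0`, along
systems of linear relations with arbitrary Frobenius levels.

Let `V` be a valuation ring of a field `K`, let `k ⊆ E ⊆ K` be subfields, `k` perfect of
characteristic `p > 0` and contained in `V`, and let `R` be a noetherian subring of `E ∩ V` with
fraction field `E`. Suppose that `V ∩ E` is log uniformizable on `Spec R`; this is proved here for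
Dedekind rings `R`, and it is known for quasi-excellent `R` of dimension at most `3` (Cossart,
Piltant). Suppose that `K` is generated over `E` by elements `z 1, ..., z s` with arbitrary linear
relations over `k` between `1` and the powers `z t ^ (p ^ e t)` (`e t ≥ 0` arbitrary), and by
elements `x 1, ..., x n` with equations `G i (v, z, x) = 0` (`v b` elements of `E`) which are schön
in the directions of the `x j`, relative to the torus of the variables of `(v, z)`, and that there
are no other relations (`dimension`). Then `V` is log uniformizable with respect to monomials on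
every scheme `X = Spec A`, where `A` is generated over `R` by monomials: for all monomial centres
and divisors there are monomial blowings-up which are log desingularizations of `X` along `V`.
Here monomials are products of powers of elements of `E`, of the `x j` and of linear combinations
over `k` of `1` and of powers `z t ^ (p ^ (e t - f))`, `f ≥ 0`. There are no conditions on the
dimension, on the rank and the defect of `V` and on the residue field extension.

Example: the irreducible components, with `x j ≠ 0` and dominating `Spec R`, of the hypersurfaces
`∑ j, c j * (v j * x j ^ (d j)) ^ (q j) = b` over `R`, where `c j, b ∈ k`, the `v j` are nonzero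
elements of `R`, the `q j` are arbitrary powers of `p` and the `d j` are prime to `p`; and the
same for systems of such equations with arbitrary coefficients `c i j`, and with nondegenerate
forms `h j` of degree prime to `p` in disjoint sets of variables instead of `x j ^ (d j)`.

The proof: (1) the system of the powers is saturated by finitely many roots, and then the
equations between the powers together with the `G i` are a schön system (helper files of
MP_b525bf_ag.FrobeniusLevels); (2) for a valuation ring `V` of `K` there are integral weights with
the same order on the finitely many terms of the equations, and the residues of the quotients of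
terms define a common zero of the initial forms (`S_WT`, `S_PT`, `S_SYS`); (3) the gradients of
the initial forms are independent there, and this makes the Jacobian criterion work along `V`
(`S_CUT`) on a model of the torus over a log uniformization of `V ∩ E` on which all monomials in
question divide each other (methods of the starting file AscentLogUniformization, `S_ASC`).
-/

set_option autoImplicit false

universe u

namespace Pool.Agent.Results.MP_5b7a2c_ag.FrobeniusLevelsAscent

open Pool.Agent.W418.LU2 Pool.Agent.N102.FL Pool.Agent.TH214.SD

/-- The local ring of `Spec B` at the centre of the valuation ring `V`: the fractions of elements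
of `B` whose denominators are units of `V`. -/
def centreRing {F : Type u} [Field F] (V : ValuationSubring F) (B : Subring F) : Subring F where
  carrier := {x | ∃ a ∈ B, ∃ b ∈ B, b ≠ 0 ∧ b⁻¹ ∈ V ∧ x = a * b⁻¹}
  mul_mem' := (lo V.toSubring B).mul_mem'
  one_mem' := (lo V.toSubring B).one_mem'
  add_mem' := (lo V.toSubring B).add_mem'
  zero_mem' := (lo V.toSubring B).zero_mem'
  neg_mem' := (lo V.toSubring B).neg_mem'

/-- The chart `A[I / f]` of the blowing-up of `Spec A` in the ideal `I`. -/
def blowUpChart {F : Type u} [Field F] (A : Subring F) (I : Ideal A) (f : A) : Subring F :=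
  Subring.closure ((A : Set F) ∪ {z | ∃ a ∈ I, z = (a : F) / (f : F)})

/-- `P` is a regular local ring and the zero set of `J` is a divisor with strict normal
crossings: the radical of `J` is generated by the product of some of the elements of a regular
system of parameters. -/
def RegularPair (P : Type u) [CommRing P] (J : Ideal P) : Prop :=
  ∃ (_ : IsRegularLocalRing P) (n : ℕ) (x : Fin n → P) (s : Finset (Fin n)),
    Ideal.span (Set.range x) = IsLocalRing.maximalIdeal P ∧ ringKrullDim P = n ∧
      J.radical = Ideal.span {∏ i ∈ s, x i}

/-- The blowing-up of `X = Spec A` in `V(I)` is a log desingularization of `(X, V(D))` along the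
valuation ring `V`. Here `f ∈ I` generates `I V`, the centre of the lift of the valuation lies in
the chart `Spec A[I / f]`, and the ideal `D I` defines the preimage of `V(D) ∪ V(I)`. -/
def IsLogDesingularization {F : Type u} [Field F] (V : ValuationSubring F) (A : Subring F)
    (D I : Ideal A) : Prop :=
  ∃ f ∈ I, f ≠ 0 ∧ (∀ a ∈ I, (a : F) / (f : F) ∈ V) ∧
    RegularPair (centreRing V (blowUpChart A I f))
      (Ideal.span {z | ∃ a ∈ D * I, (z : F) = (a : F)})

/-- The valuation ring `V` is log uniformizable on `Spec A`. (The blowings-up in the ideals
`I₀ * I₁` are cofinal: the blowing-up in `I₀ * I₁` factors through the blowing-up in `I₀`.) -/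
def IsLogUniformizable {F : Type u} [Field F] (V : ValuationSubring F) (A : Subring F) : Prop :=
  ∀ D I₀ : Ideal A, D ≠ ⊥ → I₀ ≠ ⊥ →
    ∃ I₁ : Ideal A, I₁ ≠ ⊥ ∧ IsLogDesingularization V A D (I₀ * I₁)

/-- The subring `A` of `K` is generated over the image of `R` by finitely many monomials, and the
`z t` and `x j` are quotients of elements of `A` and nonzero elements of `R`. -/
def IsMonomialModel (k : Type u) {E K : Type u} [Field k] [Field E] [Field K] [Algebra k K]
    [Algebra E K] (p : ℕ) {s n : ℕ} (e : Fin s → ℕ) (z : Fin s → K) (x : Fin n → K)
    (R : Subring E) (A : Subring K) : Prop :=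
  (∃ M : Set K, M.Finite ∧ (∀ w ∈ M, ∃ u ∈ monomials k E p e z x, (u : K) = w) ∧
    A = Subring.closure ((R.map (algebraMap E K) : Set K) ∪ M)) ∧
  (∀ t, ∃ b ∈ R, b ≠ 0 ∧ algebraMap E K b * z t ∈ A) ∧
  ∀ j, ∃ b ∈ R, b ≠ 0 ∧ algebraMap E K b * x j ∈ A

/-- `I` is a nonzero ideal which is generated by finitely many monomials (and zero). -/
def IsMonomialIdeal (k E : Type u) {K : Type u} [Field k] [Field E] [Field K] [Algebra k K]
    [Algebra E K] (p : ℕ) {s n : ℕ} (e : Fin s → ℕ) (z : Fin s → K) (x : Fin n → K)
    {A : Subring K} (I : Ideal A) : Prop :=
  I ≠ ⊥ ∧ ∃ S : Set A, S.Finite ∧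
    (∀ a ∈ S, (a : K) ≠ 0 → ∃ u ∈ monomials k E p e z x, (u : K) = a) ∧ I = Ideal.span S

/-- Let `k ⊆ E ⊆ K` be fields, `k` perfect of characteristic `p > 0`, let `V` be a valuation ring of
`K` which contains `k`, and `R` a noetherian subring of `E` with fraction field `E` which lies in
`V`. Suppose that `R` is a Dedekind ring (or a field), or that `V ∩ E` is log uniformizable on
`Spec R`. Let `K` be generated over `E` by the coordinates `z t` and `x j` of a relative schön
system over a system of linear relations between powers `z t ^ (p ^ e t)`
(`IsLeveledSystemOver`). Let `X = Spec A`, where `A ⊆ V` is a subring of `K` which is generated over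
`R` by finitely many monomials, and the `z t` and `x j` have nonzero multiples in `A` with factors
in `R`. Then for every closed set `V(D)` and every blowing-up `X₀` of `X` given by monomial ideals
`D` and `I₀` there is a monomial ideal `I₁` such that the blowing-up of `X` in `I₀ * I₁`, which
factors through `X₀`, is a log desingularization of `(X, V(D))` along `V`. -/
theorem result {p : ℕ} [Fact p.Prime] {k E K : Type u} [Field k] [PerfectField k] [CharP k p]
    [Field E] [Field K] [Algebra k E] [Algebra k K] [Algebra E K] [IsScalarTower k E K]
    (V : ValuationSubring K) (hkV : ∀ a : k, algebraMap k K a ∈ V)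
    (R : Subring E) [IsNoetherianRing R]
    (hfr : ∀ w : E, ∃ a ∈ R, ∃ b ∈ R, b ≠ 0 ∧ w = a * b⁻¹)
    (hRV : ∀ a ∈ R, algebraMap E K a ∈ V)
    (hR : IsDedekindDomain R ∨ IsLogUniformizable (V.comap (algebraMap E K)) R)
    {h s n q c : ℕ} (v : Fin h → E) (e : Fin s → ℕ) (z : Fin s → K) (x : Fin n → K)
    (G : Fin q → (Fin (h + s) ⊕ Fin n → ℤ) →₀ k) (hG : IsLeveledSystemOver p c v e z x G)
    (A : Subring K) (hA : IsMonomialModel k p e z x R A) (hAV : A ≤ V.toSubring)
    (D I₀ : Ideal A) (hD : IsMonomialIdeal k E p e z x D)
    (hI₀ : IsMonomialIdeal k E p e z x I₀) :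
    ∃ I₁ : Ideal A, IsMonomialIdeal k E p e z x I₁ ∧
      IsLogDesingularization V A D (I₀ * I₁) := by
  have hRW : R ≤ (V.comap (algebraMap E K)).toSubring := fun a ha => hRV a ha
  have hLU : LogUnif (V.comap (algebraMap E K)) R := by
    rcases hR with hR | hR
    · exact logUnif_of_dedekind _ R hRW hfr
    · exact hR
  have hsys : S_SYS.{u} := Pool.Agent.N301.FL.t_sys Pool.Agent.N169.FL.WT.t_wt
    Pool.Agent.N433.FL.t_pt
  have hasc : S_ASC.{u} := Pool.Agent.N498.FL.t_asc Pool.Agent.N595.FL.t_cut
  obtain ⟨⟨M, hM, hMm, hA⟩, hzA, hxA⟩ := hA
  exact ascent_core hsys hasc hG V hkV R hfr hRV hLU A M hM hMm hA hAV hzA hxA D I₀ hD hI₀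

end Pool.Agent.Results.MP_5b7a2c_ag.FrobeniusLevelsAscent
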